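import Mathlib

/-!
# Lifting principles for the least prime in an arithmetic progression
-/

set_option autoImplicit false

namespace Pool.Agent.Lib.MP_42948a_nt

open Finset

/-- Every reduced class mod `d` contains a prime less than `d ^ L`. -/
def Good (L : ℝ) (d : ℕ) : Prop := ∀ a : ℕ, 1 ≤ a → a < d → Nat.Coprime a d →
  ∃ k : ℕ, Nat.Prime (a + k * d) ∧ ((a + k * d : ℕ) : ℝ) < (d : ℝ) ^ L

/-- Lifting a reduced class. -/
lemma exists_lift {a d k : ℕ} (hd : 1 ≤ d) (hk : 1 ≤ k) (ha : Nat.Coprime a d) :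
    ∃ b : ℕ, b < d * k ∧ Nat.Coprime b (d * k) ∧ b ≡ a [MOD d] := by
  have hdk : 0 < d * k := Nat.mul_pos hd hk
  have : NeZero (d * k) := ⟨hdk.ne'⟩
  have : NeZero d := ⟨by omega⟩
  obtain ⟨v, hv⟩ := ZMod.unitsMap_surjective (n := d) (m := d * k) (Dvd.intro k rfl)
    (ZMod.unitOfCoprime a ha)
  refine ⟨(v : ZMod (d * k)).val, ZMod.val_lt _, ZMod.val_coe_unit_coprime v, ?_⟩
  have h1 : ((ZMod.unitsMap (Dvd.intro k rfl : d ∣ d * k) v : (ZMod d)ˣ) : ZMod d) =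
      ((v : ZMod (d * k)).cast : ZMod d) := by
    rw [ZMod.unitsMap_def]
    simp
  rw [hv, ZMod.coe_unitOfCoprime] at h1
  rw [← ZMod.natCast_eq_natCast_iff, ← ZMod.cast_eq_val, ← h1]

lemma prime_form {a d P : ℕ} (had : a < d) (h : P ≡ a [MOD d]) : ∃ k, P = a + k * d := by
  refine ⟨P / d, ?_⟩
  have h1 : P % d = a := by
    rw [h, Nat.mod_eq_of_lt had]
  have h2 := Nat.mod_add_div P d
  rw [h1] at h2
  rw [mul_comm (P / d)]
  exact h2.symm

/-- **Multiples principle.** -/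
lemma good_of_multiple {L L' : ℝ} {d k : ℕ} (hk : 1 ≤ k) (hg : Good L' (d * k))
    (h : ((d * k : ℕ) : ℝ) ^ L' ≤ (d : ℝ) ^ L) : Good L d := by
  intro a ha1 had hc
  have hd : 1 ≤ d := by omega
  obtain ⟨b, hb, hbc, hba⟩ := exists_lift hd hk hc
  have hb1 : 1 ≤ b := by
    rcases Nat.eq_zero_or_pos b with h0 | h0
    · rw [h0, Nat.coprime_zero_left] at hbc
      have : d ≤ d * k := Nat.le_mul_of_pos_right d hk
      omega
    · exact h0
  obtain ⟨l, hl, hlt⟩ := hg b hb1 hb hbc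
  have hmod : b + l * (d * k) ≡ a [MOD d] := by
    have h1 : b + l * (d * k) ≡ b [MOD d] := by
      have : l * (d * k) = d * (l * k) := by ring
      rw [this]
      simp [Nat.ModEq]
    exact h1.trans hba
  obtain ⟨m, hm⟩ := prime_form had hmod
  refine ⟨m, ?_, ?_⟩
  · rw [← hm]; exact hl
  · rw [← hm]; exact hlt.trans_le h

/-- **Sparse exceptions principle.** -/
theorem good_of_sparse {L L' : ℝ} (hL' : 1 ≤ L') (hL : L' < L)
    (h : ∃ X0 : ℕ, ∀ X : ℕ, X0 ≤ X → 2 * (Set.ncard {d : ℕ | 1 ≤ d ∧ d ≤ X ∧ ¬ Good L' d} : ℝ) ≤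
      (X : ℝ) ^ (1 - L' / L)) :
    ∃ D : ℕ, ∀ d : ℕ, D ≤ d → Good L d := by
  obtain ⟨X0, hX0⟩ := h
  have hL'0 : 0 < L' := by linarith
  have hL0 : 0 < L := by linarith
  set θ := L / L' - 1 with hθ
  have hθ0 : 0 < θ := by
    rw [hθ, sub_pos, one_lt_div hL'0]; exact hL
  -- d ^ θ ≥ 4 and d ≥ X0
  have htend : Filter.Tendsto (fun d : ℕ => (d : ℝ) ^ θ) Filter.atTop Filter.atTop :=
    (tendsto_rpow_atTop hθ0).comp tendsto_natCast_atTop_atTop
  obtain ⟨D1, hD1⟩ := Filter.eventually_atTop.mp (htend.eventually_ge_atTop 4)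
  refine ⟨max D1 (max X0 2), ?_⟩
  intro d hd
  have hd1 : D1 ≤ d := le_trans (le_max_left _ _) hd
  have hd2 : X0 ≤ d := le_trans (le_trans (le_max_left _ _) (le_max_right _ _)) hd
  have hd3 : 2 ≤ d := le_trans (le_trans (le_max_right _ _) (le_max_right _ _)) hd
  by_contra hbad
  have hdR : (0 : ℝ) < d := by positivity
  have hd1R : (1 : ℝ) ≤ d := by exact_mod_cast (by omega : 1 ≤ d)
  set Y : ℝ := (d : ℝ) ^ (L / L') with hY
  have hYd : Y = (d : ℝ) * (d : ℝ) ^ θ := by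
    rw [hY, hθ, ← Real.rpow_one_add' hdR.le (by positivity)]
    congr 1
    ring
  have hY0 : 0 ≤ Y := by positivity
  set X := ⌊Y⌋₊ with hX
  have hXY : (X : ℝ) ≤ Y := Nat.floor_le hY0
  have h4 : 4 ≤ (d : ℝ) ^ θ := hD1 d hd1
  have hdX : d ≤ X := by
    apply Nat.le_floor
    rw [hYd]
    nlinarith
  have hXX0 : X0 ≤ X := hd2.trans hdX
  have key := hX0 X hXX0
  -- lower bound for the number of bad moduli
  have hcard : X / d ≤ Set.ncard {d : ℕ | 1 ≤ d ∧ d ≤ X ∧ ¬ Good L' d} := by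
    have hfin : {d : ℕ | 1 ≤ d ∧ d ≤ X ∧ ¬ Good L' d}.Finite :=
      (Set.finite_Icc 1 X).subset (fun e he => ⟨he.1, he.2.1⟩)
    have himg : ((fun k => d * k) '' (Finset.Icc 1 (X / d) : Finset ℕ) : Set ℕ) ⊆
        {d : ℕ | 1 ≤ d ∧ d ≤ X ∧ ¬ Good L' d} := by
      rintro _ ⟨k, hk, rfl⟩
      rw [Finset.mem_coe, Finset.mem_Icc] at hk
      have hdk : d * k ≤ X := by
        calc d * k ≤ d * (X / d) := Nat.mul_le_mul_left d hk.2
          _ ≤ X := Nat.mul_div_le X d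
      refine ⟨Nat.mul_pos (by omega) hk.1, hdk, ?_⟩
      intro hg
      apply hbad
      apply good_of_multiple hk.1 hg
      calc ((d * k : ℕ) : ℝ) ^ L' ≤ Y ^ L' := by
            apply Real.rpow_le_rpow (by positivity) _ hL'0.le
            exact le_trans (by exact_mod_cast hdk) hXY
        _ = (d : ℝ) ^ L := by
            rw [hY, ← Real.rpow_mul hdR.le]
            congr 1
            field_simp
    have h5 := Set.ncard_le_ncard himg hfin
    rw [Set.ncard_image_of_injective _ (mul_right_injective₀ (by omega : d ≠ 0)),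
      Set.ncard_coe_finset, Nat.card_Icc] at h5
    simpa using h5
  -- compare
  have h6 : (d : ℝ) ^ θ - 2 < ((X / d : ℕ) : ℝ) := by
    have h7 : Y < X + 1 := Nat.lt_floor_add_one Y
    have h8 : (X : ℝ) < d * ((X / d : ℕ) + 1 : ℝ) := by
      have := Nat.lt_mul_div_succ X (by omega : 0 < d)
      exact_mod_cast this
    have h9 : Y < d * ((X / d : ℕ) + 1 : ℝ) + 1 := by linarith
    rw [hYd] at h9
    nlinarith
  have h10 : (X : ℝ) ^ (1 - L' / L) ≤ (d : ℝ) ^ θ := by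
    have h11 : 0 ≤ 1 - L' / L := by
      rw [sub_nonneg, div_le_one hL0]; exact hL.le
    calc (X : ℝ) ^ (1 - L' / L) ≤ Y ^ (1 - L' / L) :=
          Real.rpow_le_rpow (by positivity) hXY h11
      _ = (d : ℝ) ^ θ := by
          rw [hY, ← Real.rpow_mul hdR.le, hθ]
          congr 1
          field_simp
  have h12 : ((X / d : ℕ) : ℝ) ≤ (Set.ncard {d : ℕ | 1 ≤ d ∧ d ≤ X ∧ ¬ Good L' d} : ℝ) := by
    exact_mod_cast hcard
  linarith

end Pool.Agent.Lib.MP_42948a_nt
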