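import Pool.Agent.Lib.MP_42948a_nt.Quant

/-!
# Equivalent forms of Chowla's conjecture
-/

set_option autoImplicit false

namespace Pool.Agent.Lib.MP_42948a_nt

open Finset

lemma Good.mono {L M : ℝ} (h : L ≤ M) {d : ℕ} (hg : Good L d) : Good M d := by
  intro a ha had hc
  obtain ⟨k, hk, hlt⟩ := hg a ha had hc
  refine ⟨k, hk, hlt.trans_le ?_⟩
  apply Real.rpow_le_rpow_of_exponent_le _ h
  exact_mod_cast (by omega : 1 ≤ d)

theorem chowla_iff_sparse : (∀ ε : ℝ, 0 < ε → ∃ D : ℕ, ∀ d : ℕ, D ≤ d → Good (1 + ε) d) ↔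
    ∀ ε δ : ℝ, 0 < ε → 0 < δ → ∃ X0 : ℕ, ∀ X : ℕ, X0 ≤ X →
      (Set.ncard {d : ℕ | 1 ≤ d ∧ d ≤ X ∧ ¬ Good (1 + ε) d} : ℝ) ≤ (X : ℝ) ^ δ := by
  constructor
  · intro h ε δ hε hδ
    obtain ⟨D, hD⟩ := h ε hε
    have htend : Filter.Tendsto (fun X : ℕ => (X : ℝ) ^ δ) Filter.atTop Filter.atTop :=
      (tendsto_rpow_atTop hδ).comp tendsto_natCast_atTop_atTop
    obtain ⟨X0, hX0⟩ := Filter.eventually_atTop.mp (htend.eventually_ge_atTop (D : ℝ))
    refine ⟨X0, ?_⟩
    intro X hX
    refine le_trans ?_ (hX0 X hX)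
    have hsub : {d : ℕ | 1 ≤ d ∧ d ≤ X ∧ ¬ Good (1 + ε) d} ⊆ (Finset.range D : Finset ℕ) := by
      rintro d ⟨_, _, hd⟩
      rw [Finset.mem_coe, Finset.mem_range]
      by_contra hcon
      exact hd (hD d (by omega))
    have := Set.ncard_le_ncard hsub (Finset.finite_toSet _)
    rw [Set.ncard_coe_finset, Finset.card_range] at this
    exact_mod_cast this
  · intro h ε hε
    have hL : 1 + ε / 2 < 1 + ε := by linarith
    apply good_of_sparse (L' := 1 + ε / 2) (by linarith) hL
    set θ : ℝ := 1 - (1 + ε / 2) / (1 + ε) with hθ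
    have hθ0 : 0 < θ := by
      rw [hθ, sub_pos, div_lt_one (by linarith)]; exact hL
    obtain ⟨X0, hX0⟩ := h (ε / 2) (θ / 2) (by linarith) (by linarith)
    have htend : Filter.Tendsto (fun X : ℕ => (X : ℝ) ^ (θ / 2)) Filter.atTop Filter.atTop :=
      (tendsto_rpow_atTop (by linarith)).comp tendsto_natCast_atTop_atTop
    obtain ⟨X1, hX1⟩ := Filter.eventually_atTop.mp (htend.eventually_ge_atTop 2)
    refine ⟨max X0 (max X1 1), ?_⟩
    intro X hX
    have h1 := hX0 X ((le_max_left _ _).trans hX)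
    have h2 := hX1 X (((le_max_left _ _).trans (le_max_right _ _)).trans hX)
    have h3 : 1 ≤ X := ((le_max_right _ _).trans (le_max_right _ _)).trans hX
    have h4 : (X : ℝ) ^ θ = (X : ℝ) ^ (θ / 2) * (X : ℝ) ^ (θ / 2) := by
      rw [← Real.rpow_add (by exact_mod_cast h3)]
      congr 1
      ring
    rw [h4]
    exact mul_le_mul h2 h1 (by positivity) (by positivity)

theorem chowla_iff_primorial : (∀ ε : ℝ, 0 < ε → ∃ D : ℕ, ∀ d : ℕ, D ≤ d → Good (1 + ε) d) ↔
    ∀ ε : ℝ, 0 < ε → ∃ D : ℕ, ∀ d : ℕ, D ≤ d →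
      (∀ p : ℕ, p.Prime → (p : ℝ) ≤ ε * Real.log d → p ∣ d) → Good (1 + ε) d := by
  constructor
  · intro h ε hε
    obtain ⟨D, hD⟩ := h ε hε
    exact ⟨D, fun d hd _ => hD d hd⟩
  · intro h ε hε
    set η : ℝ := min (ε / 7) (1 / 6) with hη
    have hη0 : 0 < η := by
      rw [hη]; exact lt_min (by linarith) (by norm_num)
    have hη1 : η ≤ ε / 7 := min_le_left _ _
    have hη2 : η ≤ 1 / 6 := min_le_right _ _
    obtain ⟨D, hD⟩ := h η hη0
    refine ⟨max D 2, ?_⟩
    intro d hd
    have hdD : D ≤ d := (le_max_left _ _).trans hd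
    have hd2 : 2 ≤ d := (le_max_right _ _).trans hd
    have hdR : (1 : ℝ) < d := by exact_mod_cast (by omega : 1 < d)
    have hlog : 0 < Real.log d := Real.log_pos hdR
    set y : ℝ := 2 * η * Real.log d with hy
    have hy0 : 0 ≤ y := by positivity
    set n := ⌊y⌋₊ with hn
    have hny : (n : ℝ) ≤ y := Nat.floor_le hy0
    have hprim : ((primorial n : ℕ) : ℝ) ≤ (4 : ℝ) ^ n := by
      exact_mod_cast primorial_le_four_pow n
    have hpos : 1 ≤ primorial n := Nat.one_le_iff_ne_zero.mpr (by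
      have := primorial_pos n
      omega)
    have hlog4 : Real.log 4 ≤ 3 / 2 := by
      have h1 : Real.log 4 = 2 * Real.log 2 := by
        rw [show (4 : ℝ) = 2 ^ (2 : ℕ) by norm_num, Real.log_pow]
        norm_num
      have h2 := Real.log_two_lt_d9
      rw [h1]
      linarith
    have hlog4pos : 0 < Real.log 4 := Real.log_pos (by norm_num)
    -- size of the primorial
    have hsize : ((primorial n : ℕ) : ℝ) ≤ (d : ℝ) ^ (3 * η) := by
      calc ((primorial n : ℕ) : ℝ) ≤ (4 : ℝ) ^ n := hprim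
        _ = Real.exp (n * Real.log 4) := by
            rw [mul_comm, ← Real.rpow_def_of_pos (by norm_num), Real.rpow_natCast]
        _ ≤ Real.exp (Real.log d * (3 * η)) := by
            apply Real.exp_le_exp.mpr
            calc (n : ℝ) * Real.log 4 ≤ y * (3 / 2) :=
                  mul_le_mul hny hlog4 hlog4pos.le hy0
              _ = Real.log d * (3 * η) := by rw [hy]; ring
        _ = (d : ℝ) ^ (3 * η) := by
            rw [Real.rpow_def_of_pos (by linarith)]
    have hDsize : ((d * primorial n : ℕ) : ℝ) ≤ (d : ℝ) ^ (1 + 3 * η) := by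
      push_cast
      rw [Real.rpow_add (by linarith), Real.rpow_one]
      exact mul_le_mul_of_nonneg_left hsize (by linarith)
    have hgood : Good (1 + η) (d * primorial n) := by
      apply hD
      · exact hdD.trans (Nat.le_mul_of_pos_right d hpos)
      · intro p hp hple
        have h1 : Real.log ((d * primorial n : ℕ) : ℝ) ≤ 2 * Real.log d := by
          calc Real.log ((d * primorial n : ℕ) : ℝ) ≤ Real.log ((d : ℝ) ^ (1 + 3 * η)) := by
                apply Real.log_le_log _ hDsize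
                have : 0 < d * primorial n := Nat.mul_pos (by omega) hpos
                exact_mod_cast this
            _ = (1 + 3 * η) * Real.log d := Real.log_rpow (by linarith) _
            _ ≤ 2 * Real.log d := by
                apply mul_le_mul_of_nonneg_right _ hlog.le
                linarith
        have h2 : (p : ℝ) ≤ y := by
          calc (p : ℝ) ≤ η * Real.log ((d * primorial n : ℕ) : ℝ) := hple
            _ ≤ η * (2 * Real.log d) := mul_le_mul_of_nonneg_left h1 hη0.le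
            _ = y := by rw [hy]; ring
        have h3 : p ≤ n := Nat.le_floor h2
        have h4 : p ∣ primorial n := by
          unfold primorial
          apply Finset.dvd_prod_of_mem
          rw [Finset.mem_filter, Finset.mem_range]
          exact ⟨by omega, hp⟩
        exact h4.trans (Dvd.intro_left d rfl)
    apply good_of_multiple hpos hgood
    calc ((d * primorial n : ℕ) : ℝ) ^ (1 + η) ≤ ((d : ℝ) ^ (1 + 3 * η)) ^ (1 + η) :=
          Real.rpow_le_rpow (by positivity) hDsize (by linarith)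
      _ = (d : ℝ) ^ ((1 + 3 * η) * (1 + η)) := by
          rw [← Real.rpow_mul (by linarith)]
      _ ≤ (d : ℝ) ^ (1 + ε) := by
          apply Real.rpow_le_rpow_of_exponent_le hdR.le
          nlinarith

theorem chowla_iff_multiple : (∀ ε : ℝ, 0 < ε → ∃ D : ℕ, ∀ d : ℕ, D ≤ d → Good (1 + ε) d) ↔
    ∀ ε δ : ℝ, 0 < ε → 0 < δ → ∃ D : ℕ, ∀ d : ℕ, D ≤ d →
      ∃ k : ℕ, 1 ≤ k ∧ (k : ℝ) ≤ (d : ℝ) ^ δ ∧ Good (1 + ε) (d * k) := by
  constructor
  · intro h ε δ hε hδ
    obtain ⟨D, hD⟩ := h ε hε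
    refine ⟨max D 1, ?_⟩
    intro d hd
    refine ⟨1, le_rfl, ?_, ?_⟩
    · have h1 : (1 : ℝ) ≤ d := by exact_mod_cast (le_max_right _ _).trans hd
      rw [Nat.cast_one]
      exact Real.one_le_rpow h1 hδ.le
    · rw [mul_one]
      exact hD d ((le_max_left _ _).trans hd)
  · intro h ε hε
    set η : ℝ := min (ε / 3) 1 with hη
    have hη0 : 0 < η := by
      rw [hη]; exact lt_min (by linarith) (by norm_num)
    have hη1 : η ≤ ε / 3 := min_le_left _ _
    have hη2 : η ≤ 1 := min_le_right _ _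
    obtain ⟨D, hD⟩ := h η η hη0 hη0
    refine ⟨max D 1, ?_⟩
    intro d hd
    obtain ⟨k, hk1, hk, hg⟩ := hD d ((le_max_left _ _).trans hd)
    have h1 : (1 : ℝ) ≤ d := by exact_mod_cast (le_max_right _ _).trans hd
    apply good_of_multiple hk1 hg
    have h2 : ((d * k : ℕ) : ℝ) ≤ (d : ℝ) ^ (1 + η) := by
      push_cast
      rw [Real.rpow_add (by linarith), Real.rpow_one]
      exact mul_le_mul_of_nonneg_left hk (by linarith)
    calc ((d * k : ℕ) : ℝ) ^ (1 + η) ≤ ((d : ℝ) ^ (1 + η)) ^ (1 + η) :=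
          Real.rpow_le_rpow (by positivity) h2 (by linarith)
      _ = (d : ℝ) ^ ((1 + η) * (1 + η)) := by
          rw [← Real.rpow_mul (by linarith)]
      _ ≤ (d : ℝ) ^ (1 + ε) := by
          apply Real.rpow_le_rpow_of_exponent_le h1
          nlinarith

end Pool.Agent.Lib.MP_42948a_nt
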