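import Pool.Agent.Lib.MP_42948a_nt.Basic

/-!
# Chowla's conjecture implies its own quantitative form
-/

set_option autoImplicit false

namespace Pool.Agent.Lib.MP_42948a_nt

open Finset

/-- Counting lifts modulo `d * 2 ^ (j+1)`. -/
lemma card_primes_of_good {L : ℝ} {d a j : ℕ} (hd : 1 ≤ d) (hc : Nat.Coprime a d)
    (hg : Good L (d * 2 ^ (j + 1))) {x : ℝ} (hx : ((d * 2 ^ (j + 1) : ℕ) : ℝ) ^ L ≤ x) :
    2 ^ j ≤ {p ∈ Finset.range (⌊x⌋₊ + 1) | p.Prime ∧ p ≡ a [MOD d]}.card := by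
  set D := d * 2 ^ (j + 1) with hD
  set b := a % d with hb
  have hbd : b < d := Nat.mod_lt _ hd
  have hbc : Nat.Coprime b d := by
    rw [hb, Nat.Coprime, ← Nat.gcd_rec, Nat.gcd_comm]; exact hc
  set f : ℕ → ℕ := fun t => b + d * (2 * t + (b + 1) % 2) with hf
  have hflt : ∀ t, t < 2 ^ j → f t < D := by
    intro t ht
    have h1 : 2 * t + (b + 1) % 2 + 1 ≤ 2 ^ (j + 1) := by
      rw [pow_succ]
      have := Nat.mod_lt (b + 1) (by norm_num : 0 < 2)
      omega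
    calc f t < d + d * (2 * t + (b + 1) % 2) := by
          simp only [hf]; omega
      _ = d * (2 * t + (b + 1) % 2 + 1) := by ring
      _ ≤ D := Nat.mul_le_mul_left d h1
  have hfodd : ∀ t, f t % 2 = 1 := by
    intro t
    simp only [hf]
    rcases Nat.even_or_odd b with hbe | hbo
    · -- b even: then d is odd
      have hd2 : d % 2 = 1 := by
        rcases Nat.even_or_odd d with hde | hdo
        · exfalso
          have h2 : 2 ∣ Nat.gcd b d := Nat.dvd_gcd hbe.two_dvd hde.two_dvd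
          rw [hbc] at h2
          omega
        · exact Nat.odd_iff.mp hdo
      have hb0 : b % 2 = 0 := Nat.even_iff.mp hbe
      have hb1 : (b + 1) % 2 = 1 := by omega
      rw [hb1, Nat.add_mod, Nat.mul_mod, hd2, hb0]
      omega
    · have hb1 : (b + 1) % 2 = 0 := by
        have := Nat.odd_iff.mp hbo
        omega
      have hb0 : b % 2 = 1 := Nat.odd_iff.mp hbo
      rw [hb1, add_zero, Nat.add_mod, hb0]
      have : d * (2 * t) % 2 = 0 := by
        rw [Nat.mul_mod]; simp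
      rw [this]
  have hfc : ∀ t, Nat.Coprime (f t) D := by
    intro t
    rw [hD]
    apply Nat.Coprime.mul_right
    · simp only [hf]
      exact (Nat.coprime_add_mul_left_left b d _).mpr hbc
    · apply Nat.Coprime.pow_right
      rw [Nat.coprime_comm, Nat.coprime_two_left]
      exact Nat.odd_iff.mpr (hfodd t)
  have hex : ∀ t, t < 2 ^ j → ∃ k : ℕ, Nat.Prime (f t + k * D) ∧
      ((f t + k * D : ℕ) : ℝ) < (D : ℝ) ^ L := by
    intro t ht
    apply hg (f t) _ (hflt t ht) (hfc t)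
    have := hfodd t
    omega
  choose! κ hκ using hex
  have hinj : Set.InjOn (fun t => f t + κ t * D) (Finset.range (2 ^ j) : Finset ℕ) := by
    intro t ht s hs hts
    rw [Finset.mem_coe, Finset.mem_range] at ht hs
    simp only at hts
    have h1 : f t = f s := by
      have h2 : (f t + κ t * D) % D = (f s + κ s * D) % D := by rw [hts]
      rw [Nat.add_mul_mod_self_right, Nat.add_mul_mod_self_right, Nat.mod_eq_of_lt (hflt t ht),
        Nat.mod_eq_of_lt (hflt s hs)] at h2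
      exact h2
    simp only [hf] at h1
    have h3 : d * (2 * t + (b + 1) % 2) = d * (2 * s + (b + 1) % 2) := by omega
    have h4 := Nat.eq_of_mul_eq_mul_left (by omega : 0 < d) h3
    omega
  have hmaps : ∀ t ∈ Finset.range (2 ^ j), (fun t => f t + κ t * D) t ∈
      {p ∈ Finset.range (⌊x⌋₊ + 1) | p.Prime ∧ p ≡ a [MOD d]} := by
    intro t ht
    rw [Finset.mem_range] at ht
    obtain ⟨h1, h2⟩ := hκ t ht
    simp only [Finset.mem_filter, Finset.mem_range]
    refine ⟨?_, h1, ?_⟩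
    · apply Nat.lt_succ_of_le
      apply Nat.le_floor
      exact (h2.le).trans hx
    · have h3 : f t + κ t * D = b + d * (2 * t + (b + 1) % 2 + κ t * 2 ^ (j + 1)) := by
        simp only [hf, hD]; ring
      rw [h3]
      have h4 : b + d * (2 * t + (b + 1) % 2 + κ t * 2 ^ (j + 1)) ≡ b [MOD d] := by
        simp [Nat.ModEq]
      exact h4.trans (Nat.mod_modEq a d)
  have := Finset.card_le_card_of_injOn _ hmaps hinj
  rwa [Finset.card_range] at this

/-- The quantitative form follows from Chowla's conjecture. -/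
theorem quant_of_chowla (h : ∀ ε : ℝ, 0 < ε → ∃ D : ℕ, ∀ d : ℕ, D ≤ d → Good (1 + ε) d)
    (ε : ℝ) (hε : 0 < ε) : ∃ x0 : ℝ, ∀ x : ℝ, x0 ≤ x → ∀ d a : ℕ, 1 ≤ d → Nat.Coprime a d →
      (d : ℝ) ≤ x ^ (1 - ε) → x ^ (1 - ε) / d ≤
        ({p ∈ Finset.range (⌊x⌋₊ + 1) | p.Prime ∧ p ≡ a [MOD d]}.card : ℝ) := by
  -- reduce to `ε ≤ 1/2`
  wlog hε2 : ε ≤ 1 / 2 with hwlog
  · obtain ⟨x0, hx0⟩ := hwlog h (1 / 2) (by norm_num) le_rfl
    refine ⟨max x0 1, ?_⟩
    intro x hx d a hd hc hdx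
    have hx1 : 1 ≤ x := (le_max_right _ _).trans hx
    have hle : x ^ (1 - ε) ≤ x ^ (1 - 1 / 2 : ℝ) := by
      apply Real.rpow_le_rpow_of_exponent_le hx1
      linarith
    have hdR : (0 : ℝ) < d := by exact_mod_cast hd
    calc x ^ (1 - ε) / d ≤ x ^ (1 - 1 / 2 : ℝ) / d := by gcongr
      _ ≤ _ := hx0 x ((le_max_left _ _).trans hx) d a hd hc (hdx.trans hle)
  · -- choose `L` with `1 / L = 1 - ε / 2`
    set L : ℝ := (1 - ε / 2)⁻¹ with hL
    have hLpos : 0 < 1 - ε / 2 := by linarith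
    have hL1 : 1 < L := by
      rw [hL]
      exact (one_lt_inv₀ hLpos).mpr (by linarith)
    obtain ⟨D0, hD0⟩ := h (L - 1) (by linarith)
    have hD0' : ∀ d, D0 ≤ d → Good L d := by
      intro d hd
      have := hD0 d hd
      rwa [add_sub_cancel] at this
    -- `y = x ^ (1 - ε/2)`
    have ht1 : Filter.Tendsto (fun x : ℝ => x ^ (1 - ε / 2)) Filter.atTop Filter.atTop :=
      tendsto_rpow_atTop hLpos
    have ht2 : Filter.Tendsto (fun x : ℝ => x ^ (ε / 2)) Filter.atTop Filter.atTop :=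
      tendsto_rpow_atTop (by linarith)
    obtain ⟨x1, hx1⟩ := Filter.eventually_atTop.mp (ht1.eventually_ge_atTop (2 * (D0 : ℝ)))
    obtain ⟨x2, hx2⟩ := Filter.eventually_atTop.mp (ht2.eventually_ge_atTop 4)
    refine ⟨max (max x1 x2) 1, ?_⟩
    intro x hx d a hd hc hdx
    have hxx1 : x1 ≤ x := ((le_max_left _ _).trans (le_max_left _ _)).trans hx
    have hxx2 : x2 ≤ x := ((le_max_right _ _).trans (le_max_left _ _)).trans hx
    have hx1' : 1 ≤ x := (le_max_right _ _).trans hx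
    have hx0 : 0 < x := by linarith
    have hdR : (0 : ℝ) < d := by exact_mod_cast hd
    set y : ℝ := x ^ (1 - ε / 2) with hy
    have hy0 : 0 < y := by positivity
    have hyx : y = x ^ (1 - ε) * x ^ (ε / 2) := by
      rw [hy, ← Real.rpow_add hx0]; congr 1; ring
    have h4 := hx2 x hxx2
    have hyd : 4 ≤ y / d := by
      rw [le_div_iff₀ hdR, hyx, mul_comm 4]
      exact mul_le_mul hdx h4 (by norm_num) (by positivity)
    -- choose `j` with `2^(j+1) ≤ y/d < 2^(j+2)`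
    have hfl : 1 ≤ ⌊y / d⌋₊ := Nat.le_floor (by push_cast; linarith)
    set n := Nat.log 2 ⌊y / d⌋₊ with hn
    have hn1 : 2 ^ n ≤ ⌊y / d⌋₊ := Nat.pow_log_le_self 2 (by omega)
    have hn2 : ⌊y / d⌋₊ < 2 ^ (n + 1) := Nat.lt_pow_succ_log_self (by norm_num) _
    have hn1R : (2 : ℝ) ^ n ≤ y / d := by
      have h5 : ((2 ^ n : ℕ) : ℝ) ≤ (⌊y / d⌋₊ : ℝ) := by exact_mod_cast hn1
      have h6 : (⌊y / d⌋₊ : ℝ) ≤ y / d := Nat.floor_le (by positivity)
      have h7 : ((2 ^ n : ℕ) : ℝ) = (2 : ℝ) ^ n := by push_cast; rfl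
      linarith
    have hn2R : y / d < (2 : ℝ) ^ (n + 1) := by
      have h5 : y / d < (⌊y / d⌋₊ : ℝ) + 1 := Nat.lt_floor_add_one _
      have h6 : ((⌊y / d⌋₊ + 1 : ℕ) : ℝ) ≤ ((2 ^ (n + 1) : ℕ) : ℝ) := by exact_mod_cast hn2
      push_cast at h6
      linarith
    have hnpos : 1 ≤ n := by
      by_contra hcon
      have : n = 0 := by omega
      rw [this] at hn2R
      norm_num at hn2R
      linarith
    obtain ⟨j, hj⟩ : ∃ j, n = j + 1 := ⟨n - 1, by omega⟩
    rw [hj] at hn1R hn2R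
    have hDle : ((d * 2 ^ (j + 1) : ℕ) : ℝ) ≤ y := by
      push_cast
      rw [mul_comm]
      exact (le_div_iff₀ hdR).mp hn1R
    have hDge : D0 ≤ d * 2 ^ (j + 1) := by
      have h5 : y < d * (2 : ℝ) ^ (j + 1 + 1) := by
        rw [mul_comm]; exact (div_lt_iff₀ hdR).mp hn2R
      have h6 : 2 * (D0 : ℝ) ≤ y := hx1 x hxx1
      have h7 : (D0 : ℝ) < ((d * 2 ^ (j + 1) : ℕ) : ℝ) := by
        push_cast
        rw [pow_succ (2 : ℝ) (j + 1)] at h5
        linarith
      exact_mod_cast h7.le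
    have hDL : ((d * 2 ^ (j + 1) : ℕ) : ℝ) ^ L ≤ x := by
      calc ((d * 2 ^ (j + 1) : ℕ) : ℝ) ^ L ≤ y ^ L :=
            Real.rpow_le_rpow (by positivity) hDle (by linarith)
        _ = x := by
            rw [hy, ← Real.rpow_mul hx0.le, hL, mul_inv_cancel₀ hLpos.ne', Real.rpow_one]
    have hcard := card_primes_of_good hd hc (hD0' _ hDge) hDL
    have hcardR : (2 : ℝ) ^ j ≤
        ({p ∈ Finset.range (⌊x⌋₊ + 1) | p.Prime ∧ p ≡ a [MOD d]}.card : ℝ) := by
      exact_mod_cast hcard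
    refine le_trans ?_ hcardR
    -- x^(1-ε)/d ≤ 2^j
    have h8 : y / d < 4 * (2 : ℝ) ^ j := by
      calc y / d < (2 : ℝ) ^ (j + 1 + 1) := hn2R
        _ = 4 * 2 ^ j := by ring
    have h9 : 4 * (x ^ (1 - ε) / d) ≤ y / d := by
      rw [hyx, mul_div_assoc', mul_comm 4]
      gcongr
    linarith

/-- Chowla's conjecture follows from the quantitative form. -/
theorem chowla_of_quant (h : ∀ ε : ℝ, 0 < ε → ∃ x0 : ℝ, ∀ x : ℝ, x0 ≤ x → ∀ d a : ℕ, 1 ≤ d →
      Nat.Coprime a d → (d : ℝ) ≤ x ^ (1 - ε) → x ^ (1 - ε) / d ≤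
        ({p ∈ Finset.range (⌊x⌋₊ + 1) | p.Prime ∧ p ≡ a [MOD d]}.card : ℝ))
    (ε : ℝ) (hε : 0 < ε) : ∃ D : ℕ, ∀ d : ℕ, D ≤ d → Good (1 + ε) d := by
  set η : ℝ := 1 - (1 + ε / 2)⁻¹ with hη
  have h1 : 0 < 1 + ε / 2 := by linarith
  have hη0 : 0 < η := by
    rw [hη, sub_pos]
    exact inv_lt_one_of_one_lt₀ (by linarith)
  obtain ⟨x0, hx0⟩ := h η hη0
  refine ⟨max ⌈x0⌉₊ 2, ?_⟩
  intro d hd a ha1 had hc
  have hd2 : 2 ≤ d := (le_max_right _ _).trans hd
  have hdx0 : x0 ≤ d := (Nat.le_ceil x0).trans (by exact_mod_cast (le_max_left _ _).trans hd)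
  have hdR : (1 : ℝ) < d := by exact_mod_cast (by omega : 1 < d)
  set x : ℝ := (d : ℝ) ^ (1 + ε / 2) with hx
  have hxd : (d : ℝ) ≤ x := by
    calc (d : ℝ) = (d : ℝ) ^ (1 : ℝ) := (Real.rpow_one _).symm
      _ ≤ x := Real.rpow_le_rpow_of_exponent_le hdR.le (by linarith)
  have hxη : x ^ (1 - η) = d := by
    rw [hx, hη, ← Real.rpow_mul (by linarith)]
    rw [sub_sub_cancel, mul_inv_cancel₀ h1.ne', Real.rpow_one]
  have key := hx0 x (hdx0.trans hxd) d a (by omega) hc hxη.ge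
  rw [hxη, div_self (by linarith)] at key
  have hpos : 0 < {p ∈ Finset.range (⌊x⌋₊ + 1) | p.Prime ∧ p ≡ a [MOD d]}.card := by
    have : (0 : ℝ) < ({p ∈ Finset.range (⌊x⌋₊ + 1) | p.Prime ∧ p ≡ a [MOD d]}.card : ℝ) := by
      linarith
    exact_mod_cast this
  obtain ⟨p, hp⟩ := Finset.card_pos.mp hpos
  rw [Finset.mem_filter, Finset.mem_range] at hp
  obtain ⟨k, hk⟩ := prime_form had hp.2.2
  refine ⟨k, ?_, ?_⟩
  · rw [← hk]; exact hp.2.1
  · rw [← hk]
    calc (p : ℝ) ≤ (⌊x⌋₊ : ℝ) := by exact_mod_cast Nat.lt_succ_iff.mp hp.1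
      _ ≤ x := Nat.floor_le (by positivity)
      _ < (d : ℝ) ^ (1 + ε) := Real.rpow_lt_rpow_of_exponent_lt hdR (by linarith)

end Pool.Agent.Lib.MP_42948a_nt
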