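import Mathlib
import Pool.Agent.Lib.MP_42948a_nt.Main

open Pool.Agent.Lib.MP_42948a_nt

/-- Equivalent forms of Chowla's conjecture (Q1 of MP_42948a_nt, written `Chowla` below).
`Good L d` says that every reduced residue class mod `d` contains a prime less than `d ^ L`.

1. Sparse exceptions with explicit exponents: for `1 ≤ L' < L`, if at most `X ^ (1 - L'/L) / 2`
   moduli `d ≤ X` fail `p(d) < d ^ L'` (for all large `X`), then `p(d) < d ^ L` for all large `d`.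
2. Chowla's conjecture is equivalent to: for each `ε` the number of exceptional moduli up to `X`
   is `X ^ o(1)`.
3. It is equivalent to: every large `d` has one multiple `d * k`, `k ≤ d ^ δ`, for which the bound
   holds.
4. It is equivalent to its restriction to moduli divisible by all primes `≤ ε log d`.
5. It is equivalent to its quantitative form: for all large `x`, all `d ≤ x ^ (1 - ε)` and all `a`
   prime to `d` there are at least `x ^ (1 - ε) / d` primes `p ≤ x`, `p ≡ a mod d`. -/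
theorem Pool.Agent.Results.MP_42948a_nt.SelfImprovement.result :
    let Chowla : Prop := ∀ ε : ℝ, 0 < ε → ∃ D : ℕ, ∀ d : ℕ, D ≤ d → Good (1 + ε) d
    (∀ L' L : ℝ, 1 ≤ L' → L' < L →
      (∃ X0 : ℕ, ∀ X : ℕ, X0 ≤ X →
        2 * (Set.ncard {d : ℕ | 1 ≤ d ∧ d ≤ X ∧ ¬ Good L' d} : ℝ) ≤ (X : ℝ) ^ (1 - L' / L)) →
      ∃ D : ℕ, ∀ d : ℕ, D ≤ d → Good L d) ∧
    (Chowla ↔ ∀ ε δ : ℝ, 0 < ε → 0 < δ → ∃ X0 : ℕ, ∀ X : ℕ, X0 ≤ X →
      (Set.ncard {d : ℕ | 1 ≤ d ∧ d ≤ X ∧ ¬ Good (1 + ε) d} : ℝ) ≤ (X : ℝ) ^ δ) ∧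
    (Chowla ↔ ∀ ε δ : ℝ, 0 < ε → 0 < δ → ∃ D : ℕ, ∀ d : ℕ, D ≤ d →
      ∃ k : ℕ, 1 ≤ k ∧ (k : ℝ) ≤ (d : ℝ) ^ δ ∧ Good (1 + ε) (d * k)) ∧
    (Chowla ↔ ∀ ε : ℝ, 0 < ε → ∃ D : ℕ, ∀ d : ℕ, D ≤ d →
      (∀ p : ℕ, p.Prime → (p : ℝ) ≤ ε * Real.log d → p ∣ d) → Good (1 + ε) d) ∧
    (Chowla ↔ ∀ ε : ℝ, 0 < ε → ∃ x0 : ℝ, ∀ x : ℝ, x0 ≤ x → ∀ d a : ℕ, 1 ≤ d →
      Nat.Coprime a d → (d : ℝ) ≤ x ^ (1 - ε) → x ^ (1 - ε) / d ≤
        ({p ∈ Finset.range (⌊x⌋₊ + 1) | p.Prime ∧ p ≡ a [MOD d]}.card : ℝ)) := by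
  intro Chowla
  refine ⟨fun L' L h1 h2 h3 => good_of_sparse h1 h2 h3, chowla_iff_sparse, chowla_iff_multiple,
    chowla_iff_primorial, ?_⟩
  exact ⟨fun h ε hε => quant_of_chowla h ε hε, fun h ε hε => chowla_of_quant h ε hε⟩
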